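import Pool.Agent.H577R3.RM.Stmts

set_option autoImplicit false

/-! Choice of the parameters (task RM-SPR). -/

namespace Pool.Agent.H577R3.RM

open Filter Topology

namespace SPRaux

theorem card_union {α : Type} [Finite α] (P Q R : α → Prop) (h : ∀ w, Q w → R w → P w) :
    Nat.card {w // ¬ P w} ≤ Nat.card {w // ¬ Q w} + Nat.card {w // ¬ R w} := by
  have hsub : {w | ¬ P w} ⊆ {w | ¬ Q w} ∪ {w | ¬ R w} := by
    intro w hw
    by_contra hcon
    simp only [Set.mem_union, Set.mem_ofPred_eq, not_or, not_not] at hcon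
    exact hw (h w hcon.1 hcon.2)
  have h1 : Nat.card {w // ¬ P w} = {w | ¬ P w}.ncard := Nat.card_coe_set_eq _
  have h2 : Nat.card {w // ¬ Q w} = {w | ¬ Q w}.ncard := Nat.card_coe_set_eq _
  have h3 : Nat.card {w // ¬ R w} = {w | ¬ R w}.ncard := Nat.card_coe_set_eq _
  rw [h1, h2, h3]
  exact (Set.ncard_le_ncard hsub (Set.toFinite _)).trans (Set.ncard_union_le _ _)

/-- integer part of the tenth root -/
noncomputable def rt (ℓ : ℕ) : ℕ := by
  classical exact Nat.findGreatest (fun r => r ^ 10 ≤ ℓ) ℓ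

theorem rt_le (ℓ : ℕ) : rt ℓ ^ 10 ≤ ℓ := by
  classical
  unfold rt
  have := Nat.findGreatest_spec (P := fun r => r ^ 10 ≤ ℓ) (m := 0) (n := ℓ) (Nat.zero_le _)
    (by simp)
  convert this

theorem lt_rt (ℓ : ℕ) : ℓ < (rt ℓ + 1) ^ 10 := by
  classical
  by_contra hcon
  push Not at hcon
  have h1 : rt ℓ + 1 ≤ ℓ := by
    refine le_trans ?_ hcon
    exact Nat.le_self_pow (by norm_num) _
  have h2 : Nat.findGreatest (fun r => r ^ 10 ≤ ℓ) ℓ < rt ℓ + 1 := by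
    unfold rt
    apply Nat.lt_succ_of_le
    apply le_of_eq
    congr!
  exact Nat.findGreatest_is_greatest h2 h1 hcon

theorem rt_tendsto : Tendsto rt atTop atTop := by
  rw [tendsto_atTop]
  intro b
  filter_upwards [eventually_ge_atTop (b ^ 10)] with ℓ hℓ
  have h1 := lt_rt ℓ
  have h2 : b ^ 10 < (rt ℓ + 1) ^ 10 := lt_of_le_of_lt hℓ h1
  have h3 : b < rt ℓ + 1 := lt_of_pow_lt_pow_left₀ 10 (Nat.zero_le _) h2
  omega

theorem geo (q : ℝ) (hq0 : 0 ≤ q) (hq1 : q < 1) (D : ℕ) (K : ℝ) (hK : 0 ≤ K) :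
    Tendsto (fun r : ℕ => K * ((r : ℝ) + 1) ^ D * q ^ r) atTop (𝓝 0) := by
  have h := (tendsto_pow_const_mul_const_pow_of_lt_one D hq0 hq1).const_mul (K * 2 ^ D)
  rw [mul_zero] at h
  refine squeeze_zero' (Eventually.of_forall fun r => by positivity) ?_ h
  filter_upwards [eventually_ge_atTop 1] with r hr
  have hr1 : (1 : ℝ) ≤ r := by exact_mod_cast hr
  have h1 : ((r : ℝ) + 1) ^ D ≤ (2 * r) ^ D := by
    apply pow_le_pow_left₀ (by positivity)
    linarith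
  calc K * ((r : ℝ) + 1) ^ D * q ^ r ≤ K * (2 * r) ^ D * q ^ r := by gcongr
    _ = K * 2 ^ D * ((r : ℝ) ^ D * q ^ r) := by rw [mul_pow]; ring

theorem param (C L ℓ : ℕ) (hL : 17576 * C + 20 ≤ L) (hℓ : L ^ 10 ≤ ℓ) :
    L * (C * (L * (12 * L + 14)) ^ 3 + 2) + (6 * L + 12) ≤ ℓ := by
  have hL1 : 1 ≤ L := by omega
  have h1 : L * (12 * L + 14) ≤ 26 * L ^ 2 := by nlinarith
  have h2 : (L * (12 * L + 14)) ^ 3 ≤ 17576 * L ^ 6 := by
    calc (L * (12 * L + 14)) ^ 3 ≤ (26 * L ^ 2) ^ 3 := Nat.pow_le_pow_left h1 3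
      _ = 17576 * L ^ 6 := by ring
  have h3 : L * (C * (L * (12 * L + 14)) ^ 3 + 2) ≤ L * (C * (17576 * L ^ 6) + 2) :=
    Nat.mul_le_mul_left _ (Nat.add_le_add_right (Nat.mul_le_mul_left _ h2) _)
  have h4 : L ≤ L ^ 7 := Nat.le_self_pow (by norm_num) _
  have h5 : 1 ≤ L ^ 7 := Nat.one_le_pow _ _ hL1
  have h6 : L * (C * (17576 * L ^ 6) + 2) + (6 * L + 12) ≤ (17576 * C + 20) * L ^ 7 := by
    have : L * (C * (17576 * L ^ 6) + 2) = 17576 * C * L ^ 7 + 2 * L := by ring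
    rw [this]
    nlinarith
  have h7 : (17576 * C + 20) * L ^ 7 ≤ L ^ 10 := by
    calc (17576 * C + 20) * L ^ 7 ≤ L * L ^ 7 := Nat.mul_le_mul_right _ hL
      _ = L ^ 8 := by ring
      _ ≤ L ^ 10 := Nat.pow_le_pow_right hL1 (by norm_num)
  omega

theorem ratio {a N p C K : ℕ} {L : ℕ} (hp : 1 ≤ p) (h : a * p ^ L ≤ C * K * (p - 1) ^ L * N) :
    (a : ℝ) ≤ (C : ℝ) * K * (((p : ℝ) - 1) / p) ^ L * N := by
  have hp0 : (0 : ℝ) < p := by exact_mod_cast hp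
  have h1 : (a : ℝ) * (p : ℝ) ^ L ≤ C * K * ((p : ℝ) - 1) ^ L * N := by
    have : ((a * p ^ L : ℕ) : ℝ) ≤ ((C * K * (p - 1) ^ L * N : ℕ) : ℝ) := by exact_mod_cast h
    push_cast [Nat.cast_sub hp] at this
    exact this
  rw [div_pow]
  have hpL : (0 : ℝ) < (p : ℝ) ^ L := by positivity
  rw [show (C : ℝ) * K * (((p : ℝ) - 1) ^ L / (p : ℝ) ^ L) * N =
    (C * K * ((p : ℝ) - 1) ^ L * N) / (p : ℝ) ^ L by ring, le_div_iff₀ hpL]
  exact h1

theorem ratio1 {a N p C : ℕ} {L : ℕ} (hp : 1 ≤ p) (h : a * p ^ L ≤ C * (p - 1) ^ L * N) :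
    (a : ℝ) ≤ (C : ℝ) * (((p : ℝ) - 1) / p) ^ L * N := by
  have h1 := ratio (a := a) (N := N) (C := C) (K := 1) (L := L) hp (by rw [mul_one]; exact h)
  rw [Nat.cast_one, mul_one] at h1
  exact h1

end SPRaux

open SPRaux

theorem taskSPR (h1 : TaskBL) (h2 : TaskC0L) (h3 : TaskDET) : TaskSPR := by
  intro n hn
  obtain ⟨A, p, hp, hA⟩ := h1 n hn
  obtain ⟨A', p', hp', hA'⟩ := h2 n hn
  have hq : ∀ p : ℕ, 1 ≤ p → 0 ≤ ((p : ℝ) - 1) / p ∧ ((p : ℝ) - 1) / p < 1 := by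
    intro p hp
    have hp1 : (1 : ℝ) ≤ p := by exact_mod_cast hp
    refine ⟨div_nonneg (by linarith) (by linarith), ?_⟩
    rw [div_lt_one (by linarith)]
    linarith
  refine ⟨rt, fun D => ?_, ?_⟩
  · have hg := (geo (1 / 2) (by norm_num) (by norm_num) (10 * D) 1 zero_le_one).comp rt_tendsto
    refine squeeze_zero (fun ℓ => by positivity) (fun ℓ => ?_) hg
    simp only [Function.comp_apply, one_mul]
    have h4 : (ℓ : ℝ) + 1 ≤ ((rt ℓ : ℝ) + 1) ^ 10 := by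
      have := lt_rt ℓ
      exact_mod_cast this
    rw [one_div, inv_pow, ← div_eq_mul_inv, pow_mul]
    gcongr
  · have hg1 := (geo _ (hq p hp).1 (hq p hp).2 0 A (Nat.cast_nonneg _)).comp rt_tendsto
    have hg2 := (geo _ (hq p' hp').1 (hq p' hp').2 10 A' (Nat.cast_nonneg _)).comp rt_tendsto
    have hg := hg1.add hg2
    rw [add_zero] at hg
    refine squeeze_zero' (Eventually.of_forall fun ℓ => by positivity) ?_ hg
    filter_upwards [rt_tendsto.eventually_ge_atTop (17576 * A + 20)] with ℓ hℓ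
    set L := rt ℓ with hL
    have hL1 : 1 ≤ L := by omega
    have hc := card_union (α := RW n ℓ) (fun w => ∀ k k' : Fin n, k ≠ k' → Spr L k k' w.1)
      (fun w => C0 L w.1) (fun w => C1 (A * (L * (12 * L + 14)) ^ 3) (L * (12 * L + 14))
        (6 * L + 12) w.1)
      (fun w hw0 hw1 => h3 n ℓ L L _ w.1 hL1 hL1 hw0 hw1)
    have hb1 := hA (L * (12 * L + 14)) (A * (L * (12 * L + 14)) ^ 3) L (6 * L + 12) ℓ
      (Nat.mul_pos (by omega) (by omega)) le_rfl (param A L ℓ hℓ (rt_le ℓ))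
    have hb2 := hA' L ℓ
    have hr1 := ratio1 hp hb1
    have hr2 := ratio hp' hb2
    have hK : ((ℓ + 1 : ℕ) : ℝ) ≤ ((L : ℝ) + 1) ^ 10 := by
      have := lt_rt ℓ
      exact_mod_cast this
    have hq' := (hq p' hp').1
    refine div_le_of_le_mul₀ (Nat.cast_nonneg _) ?_ ?_
    · simp only [Function.comp_apply]
      have := (hq p hp).1
      positivity
    · have hc' : (Nat.card {w : RW n ℓ // ¬ ∀ k k' : Fin n, k ≠ k' → Spr L k k' w.1} : ℝ) ≤
          (Nat.card {w : RW n ℓ // ¬ C0 L w.1} : ℝ) +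
          (Nat.card {w : RW n ℓ // ¬ C1 (A * (L * (12 * L + 14)) ^ 3) (L * (12 * L + 14))
            (6 * L + 12) w.1} : ℝ) := by exact_mod_cast hc
      refine hc'.trans ?_
      have hr2' : (Nat.card {w : RW n ℓ // ¬ C0 L w.1} : ℝ) ≤
          (A' : ℝ) * ((L : ℝ) + 1) ^ 10 * (((p' : ℝ) - 1) / p') ^ L * Nat.card (RW n ℓ) := by
        refine hr2.trans ?_
        gcongr
      simp only [Function.comp_apply, pow_zero, mul_one]
      rw [add_mul]
      linarith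

end Pool.Agent.H577R3.RM
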